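import Mathlib
import Pool.Agent.H410R3.DG.JSpace

/-!
# Inversion is continuous for the `C^r` topology
-/

set_option autoImplicit false

open Set Filter Topology
open scoped Manifold ContDiff
open Pool.Agent.H410R3.KS Pool.Agent.H410R3.DG

namespace Pool.Agent.W922

set_option linter.unusedSectionVars false

section Abs

variable {Z : Type*} [TopologicalSpace Z] {E F : Type*} [NormedAddCommGroup E] [NormedSpace ℝ E]
  [NormedAddCommGroup F] [NormedSpace ℝ F]

theorem jetAt_mono {r s : ℕ∞} (hrs : s ≤ r) {u : Z → E → F} {p : Z × E} (h : JetAt r u p) :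
    JetAt s u p := by
  refine ⟨?_, fun j hj => h.2 j (hj.trans hrs)⟩
  filter_upwards [h.1] with q hq
  exact hq.of_le (by exact_mod_cast hrs)

theorem jetAt_fderiv {k : ℕ} {u : Z → E → F} {p : Z × E} (h : JetAt ((k + 1 : ℕ) : ℕ∞) u p) :
    JetAt (k : ℕ∞) (fun ζ => fderiv ℝ (u ζ)) p := by
  refine ⟨?_, fun j hj => ?_⟩
  · filter_upwards [h.1] with q hq
    refine hq.fderiv_right (m := ((k : ℕ∞) : WithTop ℕ∞)) ?_
    push_cast
    exact le_rfl
  · have hj' : j ≤ k := by exact_mod_cast hj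
    have h2 := h.2 (j + 1) (by exact_mod_cast Nat.succ_le_succ hj')
    have e : (fun q : Z × E => iteratedFDeriv ℝ j (fderiv ℝ (u q.1)) q.2) =
        fun q : Z × E => (continuousMultilinearCurryRightEquiv' ℝ j E F)
          (iteratedFDeriv ℝ (j + 1) (u q.1) q.2) := by
      funext q
      rw [iteratedFDeriv_succ_eq_comp_right]
      simp
    rw [e]
    exact (continuousMultilinearCurryRightEquiv' ℝ j E F).continuous.continuousAt.comp h2

theorem jetAt_of_fderiv {k : ℕ} {u : Z → E → F} {p : Z × E}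
    (h1 : ∀ᶠ q : Z × E in 𝓝 p, ContDiffAt ℝ (((k + 1 : ℕ) : ℕ∞) : WithTop ℕ∞) (u q.1) q.2)
    (h2 : ContinuousAt (fun q : Z × E => u q.1 q.2) p)
    (h3 : JetAt (k : ℕ∞) (fun ζ => fderiv ℝ (u ζ)) p) : JetAt ((k + 1 : ℕ) : ℕ∞) u p := by
  refine ⟨h1, fun j hj => ?_⟩
  cases j with
  | zero =>
    have e : (fun q : Z × E => iteratedFDeriv ℝ 0 (u q.1) q.2) =
        fun q : Z × E => (continuousMultilinearCurryFin0 ℝ E F).symm (u q.1 q.2) := by
      funext q
      rw [iteratedFDeriv_zero_eq_comp]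
      rfl
    rw [e]
    exact (continuousMultilinearCurryFin0 ℝ E F).symm.continuous.continuousAt.comp h2
  | succ j =>
    have hj' : j ≤ k := by
      have : j + 1 ≤ k + 1 := by exact_mod_cast hj
      omega
    have h4 := h3.2 j (by exact_mod_cast hj')
    have e : (fun q : Z × E => iteratedFDeriv ℝ (j + 1) (u q.1) q.2) =
        fun q : Z × E => (continuousMultilinearCurryRightEquiv' ℝ j E F).symm
          (iteratedFDeriv ℝ j (fderiv ℝ (u q.1)) q.2) := by
      funext q
      rw [iteratedFDeriv_succ_eq_comp_right]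
      rfl
    rw [e]
    exact (continuousMultilinearCurryRightEquiv' ℝ j E F).symm.continuous.continuousAt.comp h4

theorem slice {P : Z × E → Prop} {p : Z × E} (h : ∀ᶠ q in 𝓝 p, P q) :
    ∀ᶠ q : Z × E in 𝓝 p, ∀ᶠ w in 𝓝 q.2, P (q.1, w) := by
  filter_upwards [eventually_eventually_nhds.2 h] with q hq
  have : Tendsto (fun w' : E => (q.1, w')) (𝓝 q.2) (𝓝 q) := by
    have h := (continuous_const.prodMk continuous_id : Continuous (fun w' : E => (q.1, w'))).tendsto
      q.2
    exact h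
  exact this.eventually hq

theorem jetAt_inverse [CompleteSpace E] {r : ℕ∞} (hr : 1 ≤ r) {u v : Z → E → E} {ζ : Z} {a b : E}
    (hu : JetAt r u (ζ, a)) (hv : ∀ᶠ q : Z × E in 𝓝 (ζ, b), ContDiffAt ℝ r (v q.1) q.2)
    (hvc : ContinuousAt (fun q : Z × E => v q.1 q.2) (ζ, b)) (hab : v ζ b = a)
    (huv : ∀ᶠ q : Z × E in 𝓝 (ζ, b), u q.1 (v q.1 q.2) = q.2)
    (hvu : ∀ᶠ q : Z × E in 𝓝 (ζ, a), v q.1 (u q.1 q.2) = q.2) : JetAt r v (ζ, b) := by
  have hr1 : (1 : WithTop ℕ∞) ≤ (r : WithTop ℕ∞) := by exact_mod_cast hr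
  have hr0 : (r : WithTop ℕ∞) ≠ 0 := by
    intro h
    rw [h] at hr1
    exact absurd hr1 (by simp)
  have hc : Tendsto (fun q : Z × E => (q.1, v q.1 q.2)) (𝓝 (ζ, b)) (𝓝 (ζ, a)) := by
    have : ContinuousAt (fun q : Z × E => (q.1, v q.1 q.2)) (ζ, b) := continuousAt_fst.prodMk hvc
    rw [← hab]
    exact this
  -- derivatives are inverse to each other
  have hD : ∀ᶠ q : Z × E in 𝓝 (ζ, b), ∃ e : E ≃L[ℝ] E,
      (e : E →L[ℝ] E) = fderiv ℝ (u q.1) (v q.1 q.2) ∧
      fderiv ℝ (v q.1) q.2 = (e.symm : E →L[ℝ] E) := by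
    filter_upwards [hv, slice huv, hc.eventually hu.1, hc.eventually (slice hvu)] with q h1 h2 h3 h4
    have d1 : HasFDerivAt (v q.1) (fderiv ℝ (v q.1) q.2) q.2 :=
      (h1.differentiableAt hr0).hasFDerivAt
    have d2 : HasFDerivAt (u q.1) (fderiv ℝ (u q.1) (v q.1 q.2)) (v q.1 q.2) :=
      (h3.differentiableAt hr0).hasFDerivAt
    have e1 : (fderiv ℝ (u q.1) (v q.1 q.2)).comp (fderiv ℝ (v q.1) q.2) =
        ContinuousLinearMap.id ℝ E := by
      have := d2.comp q.2 d1
      refine this.unique ?_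
      refine (hasFDerivAt_id q.2).congr_of_eventuallyEq ?_
      filter_upwards [h2] with w hw
      exact hw
    have hq : u q.1 (v q.1 q.2) = q.2 := h2.self_of_nhds
    have e2 : (fderiv ℝ (v q.1) q.2).comp (fderiv ℝ (u q.1) (v q.1 q.2)) =
        ContinuousLinearMap.id ℝ E := by
      have d1' : HasFDerivAt (v q.1) (fderiv ℝ (v q.1) q.2) (u q.1 (v q.1 q.2)) := by
        rw [hq]; exact d1
      have := d1'.comp (v q.1 q.2) d2
      refine this.unique ?_
      refine (hasFDerivAt_id _).congr_of_eventuallyEq ?_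
      filter_upwards [h4] with w hw
      exact hw
    refine ⟨ContinuousLinearEquiv.equivOfInverse (fderiv ℝ (u q.1) (v q.1 q.2))
      (fderiv ℝ (v q.1) q.2) (fun x => ?_) (fun x => ?_), ?_, ?_⟩
    · exact DFunLike.congr_fun e2 x
    · exact DFunLike.congr_fun e1 x
    · rfl
    · rfl
  have claim : ∀ k : ℕ, (k : ℕ∞) ≤ r → JetAt (k : ℕ∞) v (ζ, b) := by
    intro k
    induction k with
    | zero =>
      intro _
      refine ⟨?_, fun j hj => ?_⟩
      · filter_upwards [hv] with q hq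
        exact hq.of_le (by simp)
      · have hj0 : j = 0 := by simpa using hj
        subst hj0
        have e : (fun q : Z × E => iteratedFDeriv ℝ 0 (v q.1) q.2) =
            fun q : Z × E => (continuousMultilinearCurryFin0 ℝ E E).symm (v q.1 q.2) := by
          funext q
          rw [iteratedFDeriv_zero_eq_comp]
          rfl
        rw [e]
        exact (continuousMultilinearCurryFin0 ℝ E E).symm.continuous.continuousAt.comp hvc
    | succ k ih =>
      intro hk
      have hk' : (k : ℕ∞) ≤ r := le_trans (by exact_mod_cast Nat.le_succ k) hk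
      have ih' := ih hk'
      refine jetAt_of_fderiv ?_ hvc ?_
      · filter_upwards [hv] with q hq
        exact hq.of_le (by exact_mod_cast hk)
      · -- the derivative
        have j1 : JetAt (k : ℕ∞) (fun ζ => fderiv ℝ (u ζ)) (ζ, a) :=
          jetAt_fderiv (jetAt_mono hk hu)
        have j2 : JetAt (k : ℕ∞) (fun ζ => (fderiv ℝ (u ζ)) ∘ (v ζ)) (ζ, b) := by
          refine JetAt.comp (p := (ζ, b)) ?_ ih'
          show JetAt (k : ℕ∞) (fun ζ => fderiv ℝ (u ζ)) (ζ, v ζ b)
          rw [hab]; exact j1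
        let Ω : Set (E →L[ℝ] E) := range ((↑) : (E ≃L[ℝ] E) → (E →L[ℝ] E))
        have hΩ : IsOpen Ω := ContinuousLinearEquiv.isOpen
        have hinv : ContDiffOn ℝ ((k : ℕ∞) : WithTop ℕ∞)
            (ContinuousLinearMap.inverse : (E →L[ℝ] E) → (E →L[ℝ] E)) Ω := by
          rintro _ ⟨e, rfl⟩
          exact (contDiffAt_map_inverse e).contDiffWithinAt
        have hmem : ((fderiv ℝ (u ζ)) ∘ (v ζ)) b ∈ Ω := by
          obtain ⟨e, he, -⟩ := hD.self_of_nhds
          exact ⟨e, he⟩
        have j3 : JetAt (k : ℕ∞) (fun ζ => ContinuousLinearMap.inverse ∘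
            ((fderiv ℝ (u ζ)) ∘ (v ζ))) (ζ, b) :=
          JetAt.comp (p := (ζ, b)) (jetAt_const (Z := Z) hΩ hinv (p := (ζ, _)) hmem) j2
        refine j3.congr ?_
        filter_upwards [slice hD] with q hq
        filter_upwards [hq] with w hw
        obtain ⟨e, he1, he2⟩ := hw
        simp only [Function.comp]
        rw [he2, ← he1, ContinuousLinearMap.inverse_equiv]
  exact ⟨hv, fun j hj => (claim j hj).2 j le_rfl⟩

end Abs

section Man

variable {E : Type} [NormedAddCommGroup E] [NormedSpace ℝ E] [FiniteDimensional ℝ E]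
  {M : Type} [TopologicalSpace M] [ChartedSpace E M]

theorem DiffR.inv_left {r : ℕ∞} (f : DiffR 𝓘(ℝ, E) M r) (x : M) : f.inv (f.map x) = x :=
  (Diffeomorph.toEquiv f : M ≃ M).symm_apply_apply x

theorem DiffR.inv_right {r : ℕ∞} (f : DiffR 𝓘(ℝ, E) M r) (x : M) : f.map (f.inv x) = x :=
  (Diffeomorph.toEquiv f : M ≃ M).apply_symm_apply x

theorem DiffR.contMDiff_inv {r : ℕ∞} (f : DiffR 𝓘(ℝ, E) M r) :
    ContMDiff 𝓘(ℝ, E) 𝓘(ℝ, E) r f.inv := Diffeomorph.contMDiff_invFun f

/-- If evaluation is continuous, so is evaluation of the inverse. -/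
theorem continuous_eval_inv {r : ℕ∞} [CompactSpace M] [T2Space M]
    [t : TopologicalSpace (DiffR 𝓘(ℝ, E) M r)]
    (hev : Continuous (fun q : DiffR 𝓘(ℝ, E) M r × M => q.1.map q.2)) :
    Continuous (fun q : DiffR 𝓘(ℝ, E) M r × M => q.1.inv q.2) := by
  rw [continuous_iff_isClosed]
  intro C hC
  have h1 : IsClosed {q : (DiffR 𝓘(ℝ, E) M r × M) × M | q.2 ∈ C ∧ q.1.1.map q.2 = q.1.2} := by
    refine (hC.preimage continuous_snd).inter (isClosed_eq ?_ (by fun_prop))
    exact hev.comp ((continuous_fst.comp continuous_fst).prodMk continuous_snd)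
  have h2 := isClosedMap_fst_of_compactSpace (X := DiffR 𝓘(ℝ, E) M r × M) (Y := M) _ h1
  convert h2 using 1
  ext q
  constructor
  · intro hq
    exact ⟨(q, q.1.inv q.2), ⟨hq, DiffR.inv_right _ _⟩, rfl⟩
  · rintro ⟨⟨q', x⟩, ⟨hx, hxq⟩, rfl⟩
    show q'.1.inv q'.2 ∈ C
    have : q'.1.map x = q'.2 := hxq
    rw [← this, DiffR.inv_left]
    exact hx

theorem jetM_inv {r : ℕ∞} (hr : 1 ≤ r) [IsManifold 𝓘(ℝ, E) ∞ M] [CompactSpace M] [T2Space M]
    [t : TopologicalSpace (DiffR 𝓘(ℝ, E) M r)] (ht : t ≤ crTopology 𝓘(ℝ, E) M r) :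
    JetM E r (fun f : DiffR 𝓘(ℝ, E) M r => f.inv) := by
  have hev := continuous_eval_of_le (E := E) (M := M) (r := r) ht
  have hevi := continuous_eval_inv hev
  have hj := jetM_of_le (E := E) (M := M) (r := r) ht
  intro x y f w hw hfw
  have hfw' : f.inv ((chartAt E x).symm w) ∈ (chartAt E y).source := hfw
  set a : E := (chartAt E y) (f.inv ((chartAt E x).symm w)) with ha
  have hay : a ∈ (chartAt E y).target := (chartAt E y).map_source hfw'
  have hasy : (chartAt E y).symm a = f.inv ((chartAt E x).symm w) :=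
    (chartAt E y).left_inv hfw'
  have hfa : f.map ((chartAt E y).symm a) ∈ (chartAt E x).source := by
    rw [hasy, DiffR.inv_right]
    exact (chartAt E x).map_target hw
  have hcomb : ContinuousAt (fun q : DiffR 𝓘(ℝ, E) M r × E => q.1.inv ((chartAt E x).symm q.2))
      (f, w) := continuousAt_comb (F := fun f : DiffR 𝓘(ℝ, E) M r => f.inv) hevi x f w hw
  have hcomb2 : ContinuousAt (fun q : DiffR 𝓘(ℝ, E) M r × E => q.1.map ((chartAt E y).symm q.2))
      (f, a) := continuousAt_comb (F := fun f : DiffR 𝓘(ℝ, E) M r => f.map) hev y f a hay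
  have g1 : ∀ᶠ q : DiffR 𝓘(ℝ, E) M r × E in 𝓝 (f, w), q.2 ∈ (chartAt E x).target ∧
      q.1.inv ((chartAt E x).symm q.2) ∈ (chartAt E y).source :=
    (continuousAt_snd.eventually ((chartAt E x).open_target.mem_nhds hw)).and
      (hcomb.eventually ((chartAt E y).open_source.mem_nhds hfw'))
  have g2 : ∀ᶠ q : DiffR 𝓘(ℝ, E) M r × E in 𝓝 (f, a), q.2 ∈ (chartAt E y).target ∧
      q.1.map ((chartAt E y).symm q.2) ∈ (chartAt E x).source :=
    (continuousAt_snd.eventually ((chartAt E y).open_target.mem_nhds hay)).and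
      (hcomb2.eventually ((chartAt E x).open_source.mem_nhds hfa))
  refine jetAt_inverse hr (a := a) (hj y x f a hay hfa) ?_ ?_ ?_ ?_ ?_
  · filter_upwards [g1] with q hq
    refine (contDiffOn_localRep x y (DiffR.contMDiff_inv q.1)).contDiffAt ?_
    exact (isOpen_dom x y (DiffR.contMDiff_inv q.1).continuous).mem_nhds hq
  · have h1 : ContinuousAt (fun q : DiffR 𝓘(ℝ, E) M r × E =>
        (chartAt E y) (q.1.inv ((chartAt E x).symm q.2))) (f, w) :=
      ContinuousAt.comp (g := chartAt E y) ((chartAt E y).continuousAt hfw') hcomb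
    refine h1.congr (Eventually.of_forall fun q => ?_)
    exact (localRep_eq _ _ _ _).symm
  · exact localRep_eq _ _ _ _
  · filter_upwards [g1] with q hq
    simp only [localRep_eq]
    rw [(chartAt E y).left_inv hq.2, DiffR.inv_right, (chartAt E x).right_inv hq.1]
  · filter_upwards [g2] with q hq
    simp only [localRep_eq]
    rw [(chartAt E x).left_inv hq.2, DiffR.inv_left, (chartAt E y).right_inv hq.1]

/-- The inverse of a diffeomorphism. -/
def invD {r : ℕ∞} (f : DiffR 𝓘(ℝ, E) M r) : DiffR 𝓘(ℝ, E) M r where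
  toEquiv := (Diffeomorph.toEquiv f).symm
  contMDiff_toFun := Diffeomorph.contMDiff_invFun f
  contMDiff_invFun := Diffeomorph.contMDiff_toFun f

theorem invD_map {r : ℕ∞} (f : DiffR 𝓘(ℝ, E) M r) : (invD f).map = f.inv := rfl

theorem continuous_J {X : Type*} [TopologicalSpace X] {r : ℕ∞} {V : Type}
    [NormedAddCommGroup V] [NormedSpace ℝ V] {ρ : M → ℝ}
    [IsManifold 𝓘(ℝ, E) ∞ M] [CompactSpace M] [T2Space M] (t : Finset M) {e : M → V}
    (he : ContMDiff 𝓘(ℝ, E) 𝓘(ℝ, V) ∞ e)
    (hρ : ∀ z, 0 < ρ z ∧ Metric.closedBall ((chartAt E z) z) (ρ z) ⊆ (chartAt E z).target)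
    (F : X → CR E M r) (hev : Continuous (fun q : X × M => (F q.1).1 q.2))
    (hj : JetM E r (fun x => (F x).1)) :
    Continuous (fun x => JMap t he hρ (F x)) := by
  refine Continuous.prodMk ?_ ?_
  · exact ContinuousMap.continuous_of_continuous_uncurry _ hev
  · refine continuous_pi fun c => continuous_pi fun j => ?_
    refine ContinuousMap.continuous_of_continuous_uncurry _ ?_
    rw [continuous_iff_continuousAt]
    rintro ⟨f, w⟩
    have hw : (w : E) ∈ (chartAt E (c : M)).target := (hρ c).2 w.2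
    have h1 := (jetE_of_jetM hev hj he c f w hw).2 j j.2
    have h2 : ContinuousAt (fun q : X ×
        Metric.closedBall ((chartAt E (c : M)) (c : M)) (ρ c) => (q.1, (q.2 : E))) (f, w) := by
      fun_prop
    exact ContinuousAt.comp (f := fun q : X ×
        Metric.closedBall ((chartAt E (c : M)) (c : M)) (ρ c) => (q.1, (q.2 : E)))
      (g := fun q : X × E => iteratedFDeriv ℝ (j : ℕ)
        (fun w => e ((F q.1).1 ((chartAt E (c : M)).symm w))) q.2) h1 h2

end Man

end Pool.Agent.W922
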