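import Mathlib
import Pool.Agent.W922.InvJet

/-!
# `Diff^r(M)` is Polish
-/

set_option autoImplicit false

open Set Filter Topology
open scoped Manifold ContDiff
open Pool.Agent.H410R3.KS Pool.Agent.H410R3.DG

namespace Pool.Agent.W922

set_option linter.unusedSectionVars false

variable {E : Type} [NormedAddCommGroup E] [NormedSpace ℝ E] [FiniteDimensional ℝ E]
  {M : Type} [TopologicalSpace M] [ChartedSpace E M]
  {V : Type} [NormedAddCommGroup V] [NormedSpace ℝ V] {r : ℕ∞} {ρ : M → ℝ} {t : Finset M}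
  [IsManifold 𝓘(ℝ, E) ∞ M] {e : M → V}

/-- Limits of jets of maps. -/
theorem taylor_limit [CompactSpace M] [T2Space M] (he : ContMDiff 𝓘(ℝ, E) 𝓘(ℝ, V) ∞ e)
    (hρ : ∀ z, 0 < ρ z ∧ Metric.closedBall ((chartAt E z) z) (ρ z) ⊆ (chartAt E z).target)
    {P : QSpace E V r ρ t} (hP : P ∈ closure (range (fun g : CR E M r => JMap t he hρ g)))
    (c : t) :
    ∃ p : E → FormalMultilinearSeries ℝ E V,
      HasFTaylorSeriesUpToOn r (fun w => e (P.1 ((chartAt E (c : M)).symm w))) p
        (Metric.ball ((chartAt E (c : M)) (c : M)) (ρ c)) ∧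
      ∀ (j : ℕ) (hj : (j : ℕ∞) ≤ r) (x : E)
        (hx : x ∈ Metric.closedBall ((chartAt E (c : M)) (c : M)) (ρ c)),
          p x j = P.2 c ⟨j, hj⟩ ⟨x, hx⟩ := by
  classical
  set B := Metric.ball ((chartAt E (c : M)) (c : M)) (ρ c) with hB
  set CB := Metric.closedBall ((chartAt E (c : M)) (c : M)) (ρ c) with hCB
  have hBCB : B ⊆ CB := Metric.ball_subset_closedBall
  have hBt : B ⊆ (chartAt E (c : M)).target := hBCB.trans (hρ c).2
  have _ : CompactSpace CB := isCompact_iff_compactSpace.1 (isCompact_closedBall _ _)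
  let l : Filter (CR E M r) := comap (fun g : CR E M r => JMap t he hρ g) (𝓝 P)
  have hl : NeBot l := by
    rw [comap_neBot_iff]
    intro s hs
    obtain ⟨_, hq, ⟨g, rfl⟩⟩ := mem_closure_iff_nhds.1 hP s hs
    exact ⟨g, hq⟩
  have ht : Tendsto (fun g : CR E M r => JMap t he hρ g) l (𝓝 P) := tendsto_comap
  -- the local representatives
  let u : CR E M r → E → V := fun g w => e (g.1 ((chartAt E (c : M)).symm w))
  have hu : ∀ g, ContDiffOn ℝ r (u g) (chartAt E (c : M)).target :=
    fun g => contDiffOn_eRep he g.2 (c : M)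
  -- uniform convergence of the jets
  have h1 : ∀ (j : ℕ) (hj : (j : ℕ∞) ≤ r), TendstoUniformly
      (fun (g : CR E M r) (x : CB) => iteratedFDeriv ℝ j (u g) (x : E))
      (fun x : CB => P.2 c ⟨j, hj⟩ x) l := by
    intro j hj
    have h2 : Tendsto (fun g : CR E M r => (JMap t he hρ g).2 c ⟨j, hj⟩) l
        (𝓝 (P.2 c ⟨j, hj⟩)) := by
      have h3 : Continuous (fun Q : QSpace E V r ρ t => Q.2 c ⟨j, hj⟩) := by fun_prop
      exact (h3.tendsto P).comp ht
    exact ContinuousMap.tendsto_iff_tendstoUniformly.1 h2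
  let p : E → FormalMultilinearSeries ℝ E V := fun x j =>
    if h : x ∈ CB ∧ (j : ℕ∞) ≤ r then P.2 c ⟨j, h.2⟩ ⟨x, h.1⟩ else 0
  have hp : ∀ (j : ℕ) (hj : (j : ℕ∞) ≤ r) (x : E) (hx : x ∈ CB),
      p x j = P.2 c ⟨j, hj⟩ ⟨x, hx⟩ := by
    intro j hj x hx
    exact dif_pos ⟨hx, hj⟩
  have h1' : ∀ (j : ℕ), (j : ℕ∞) ≤ r → TendstoUniformlyOn
      (fun (g : CR E M r) (x : E) => iteratedFDeriv ℝ j (u g) x) (fun x => p x j) l CB := by
    intro j hj
    rw [tendstoUniformlyOn_iff_tendstoUniformly_comp_coe]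
    have := h1 j hj
    convert this using 2 with x
    exact hp j hj x x.2
  have hpt : ∀ (j : ℕ), (j : ℕ∞) ≤ r → ∀ x ∈ CB,
      Tendsto (fun g : CR E M r => iteratedFDeriv ℝ j (u g) x) l (𝓝 (p x j)) := by
    intro j hj x hx
    exact (h1' j hj).tendsto_at hx
  refine ⟨p, ⟨?_, ?_, ?_⟩, hp⟩
  · intro x hx
    have a1 := hpt 0 (by simp) x (hBCB hx)
    have a2 : Tendsto (fun g : CR E M r => (iteratedFDeriv ℝ 0 (u g) x).curry0) l
        (𝓝 (p x 0).curry0) := by
      have h3 : Continuous (fun L : ContinuousMultilinearMap ℝ (fun _ : Fin 0 => E) V =>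
        L.curry0) := (continuousMultilinearCurryFin0 ℝ E V).continuous
      exact (h3.tendsto _).comp a1
    have a3 : Tendsto (fun g : CR E M r => u g x) l
        (𝓝 (e (P.1 ((chartAt E (c : M)).symm x)))) := by
      have h4 : Continuous (fun Q : QSpace E V r ρ t => e (Q.1 ((chartAt E (c : M)).symm x))) := by
        refine he.continuous.comp ?_
        exact (continuous_eval_const (F := C(M, M)) ((chartAt E (c : M)).symm x)).comp
          continuous_fst
      exact (h4.tendsto P).comp ht
    refine tendsto_nhds_unique a2 (a3.congr fun g => ?_)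
    rw [iteratedFDeriv_zero_eq_comp]
    simp
  · intro m hm x hx
    have hm1 : ((m + 1 : ℕ) : ℕ∞) ≤ r := by
      have : (m : ℕ∞) < r := by exact_mod_cast hm
      exact Order.add_one_le_of_lt this
    have hm0 : (m : ℕ∞) ≤ r := le_trans (by exact_mod_cast Nat.le_succ m) hm1
    refine HasFDerivAt.hasFDerivWithinAt ?_
    refine hasFDerivAt_of_tendstoUniformlyOn (l := l) (s := B)
      (f := fun g : CR E M r => iteratedFDeriv ℝ m (u g))
      (f' := fun (g : CR E M r) x => (iteratedFDeriv ℝ (m + 1) (u g) x).curryLeft)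
      (g := fun x => p x m) (g' := fun x => (p x (m + 1)).curryLeft)
      Metric.isOpen_ball ?_ ?_ ?_ hx
    · have a1 := (h1' (m + 1) hm1).mono hBCB
      have a2 : UniformContinuous
          (fun L : ContinuousMultilinearMap ℝ (fun _ : Fin (m + 1) => E) V => L.curryLeft) :=
        (continuousMultilinearCurryLeftEquiv ℝ (fun _ : Fin (m + 1) => E) V).isometry.uniformContinuous
      exact a2.comp_tendstoUniformlyOn a1
    · intro g y hy
      have a1 : ContDiffAt ℝ r (u g) y :=
        (hu g).contDiffAt ((chartAt E (c : M)).open_target.mem_nhds (hBt hy))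
      have a2 := (a1.differentiableAt_iteratedFDeriv (m := m) (by exact_mod_cast hm)).hasFDerivAt
      rw [fderiv_iteratedFDeriv] at a2
      exact a2
    · intro y hy
      exact hpt m hm0 y (hBCB hy)
  · intro m hm
    have hm' : (m : ℕ∞) ≤ r := by exact_mod_cast hm
    have a1 : ContinuousOn (fun x => p x m) CB := by
      rw [continuousOn_iff_continuous_domRestrict]
      have : (CB.domRestrict fun x => p x m) = fun x : CB => P.2 c ⟨m, hm'⟩ x := by
        funext x
        exact hp m hm' x x.2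
      rw [this]
      exact (P.2 c ⟨m, hm'⟩).continuous
    exact a1.mono hBCB

theorem isClosed_range_J [CompactSpace M] [T2Space M] (he : ContMDiff 𝓘(ℝ, E) 𝓘(ℝ, V) ∞ e)
    (hρ : ∀ z, 0 < ρ z ∧ Metric.closedBall ((chartAt E z) z) (ρ z) ⊆ (chartAt E z).target)
    (hle : LocLeft E e)
    (ht : ∀ z, ∃ c ∈ t, z ∈ (chartAt E c).source ∧ (chartAt E c) z ∈
        Metric.ball ((chartAt E c) c) (ρ c)) :
    IsClosed (range (fun g : CR E M r => JMap t he hρ g)) := by
  have _ : IsManifold 𝓘(ℝ, E) r M := IsManifold.of_le (n := ∞) (by exact_mod_cast le_top)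
  refine isClosed_of_closure_subset fun P hP => ?_
  choose p hp1 hp2 using fun c => taylor_limit he hρ hP c
  -- `P.1` is `C^r`
  have hsm : ContMDiff 𝓘(ℝ, E) 𝓘(ℝ, E) r P.1 := by
    intro z
    obtain ⟨c, hct, hzc, hzb⟩ := ht z
    rw [contMDiffAt_iff_of_mem_source (x := c) (y := P.1 z) hzc (mem_chart_source E _)]
    refine ⟨P.1.continuous.continuousAt, ?_⟩
    obtain ⟨A, Ω, hΩ, hyΩ, hA, hAe⟩ := hle (P.1 z) (P.1 z) (mem_chart_source E _)
    have h1 : ContDiffAt ℝ r (fun w => e (P.1 ((chartAt E c).symm w))) ((chartAt E c) z) :=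
      ((hp1 ⟨c, hct⟩).contDiffOn).contDiffAt (Metric.isOpen_ball.mem_nhds hzb)
    have h2 : e (P.1 ((chartAt E c).symm ((chartAt E c) z))) ∈ Ω := by
      rw [(chartAt E c).left_inv hzc]; exact hyΩ
    have h3 : ContDiffAt ℝ r A (e (P.1 ((chartAt E c).symm ((chartAt E c) z)))) :=
      (hA.contDiffAt (hΩ.mem_nhds h2)).of_le (by exact_mod_cast le_top)
    have h4 : ContDiffAt ℝ r (fun w => A (e (P.1 ((chartAt E c).symm w)))) ((chartAt E c) z) :=
      h3.comp ((chartAt E c) z) h1
    have h5 : ContDiffAt ℝ r (extChartAt 𝓘(ℝ, E) (P.1 z) ∘ P.1 ∘ (extChartAt 𝓘(ℝ, E) c).symm)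
        ((chartAt E c) z) := by
      refine h4.congr_of_eventuallyEq ?_
      have hc : ContinuousAt (fun w => P.1 ((chartAt E c).symm w)) ((chartAt E c) z) :=
        P.1.continuous.continuousAt.comp
          ((chartAt E c).continuousAt_symm ((chartAt E c).map_source hzc))
      have hc' : Tendsto (fun w => P.1 ((chartAt E c).symm w)) (𝓝 ((chartAt E c) z))
          (𝓝 (P.1 z)) := by
        have : P.1 z = P.1 ((chartAt E c).symm ((chartAt E c) z)) := by
          rw [(chartAt E c).left_inv hzc]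
        rw [this]
        exact hc
      filter_upwards [hc'.eventually hAe] with w hw
      simp only [Function.comp, mfld_simps]
      exact hw.symm
    have h6 : extChartAt 𝓘(ℝ, E) c z = (chartAt E c) z := by simp [mfld_simps]
    rw [h6]
    exact h5.contDiffWithinAt
  refine ⟨⟨P.1, hsm⟩, ?_⟩
  refine Prod.ext (by ext; rfl) ?_
  funext c j
  ext1 x
  obtain ⟨j, hj⟩ := j
  obtain ⟨x, hx⟩ := x
  set B := Metric.ball ((chartAt E (c : M)) (c : M)) (ρ c) with hB
  set CB := Metric.closedBall ((chartAt E (c : M)) (c : M)) (ρ c) with hCB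
  have hBCB : B ⊆ CB := Metric.ball_subset_closedBall
  have key : EqOn (fun x => iteratedFDeriv ℝ j (fun w => e (P.1 ((chartAt E (c : M)).symm w))) x)
      (fun x => p c x j) CB := by
    refine Set.EqOn.of_subset_closure (s := B) ?_ ?_ ?_ hBCB ?_
    · intro y hy
      have h1 := (hp1 c).eq_iteratedFDerivWithin_of_uniqueDiffOn (m := j)
        (by exact_mod_cast hj) Metric.isOpen_ball.uniqueDiffOn hy
      show iteratedFDeriv ℝ j (fun w => e (P.1 ((chartAt E (c : M)).symm w))) y = p c y j
      rw [h1, iteratedFDerivWithin_of_isOpen j Metric.isOpen_ball hy]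
    · exact (continuousOn_iter (chartAt E (c : M)).open_target
        (contDiffOn_eRep he hsm (c : M)) hj).mono (hρ c).2
    · rw [continuousOn_iff_continuous_domRestrict]
      have : (CB.domRestrict fun x => p c x j) = fun x : CB => P.2 c ⟨j, hj⟩ x := by
        funext x
        exact hp2 c j hj x x.2
      rw [this]
      exact (P.2 c ⟨j, hj⟩).continuous
    · rw [hB, closure_ball _ (hρ c).1.ne']
  have h1 := key hx
  have h2 := hp2 c j hj x hx
  exact h1.trans h2

/-- `Diff^r(M)`, `r ≥ 1`, with the `C^r` topology is a Polish space. -/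
theorem polish_cr (r : ℕ∞) (hr : 1 ≤ r) [CompactSpace M] [T2Space M] :
    @PolishSpace (DiffR 𝓘(ℝ, E) M r) (crTopology 𝓘(ℝ, E) M r) := by
  obtain ⟨ι, hι, e, he, hle⟩ := exists_emb E M
  obtain ⟨ρ, t, hρ, ht⟩ := exists_cover E M
  have e1 : crTopology 𝓘(ℝ, E) M r = TopologicalSpace.induced
      (fun f : DiffR 𝓘(ℝ, E) M r => JMap t he hρ (toCR f)) inferInstance :=
    le_antisymm (cr_le_J he hρ r t) (J_le_cr t he hρ hle ht)
  have _ : SecondCountableTopology M := ChartedSpace.secondCountable_of_sigmaCompact E M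
  have _ : ∀ j : ℕ, FiniteDimensional ℝ
    (ContinuousMultilinearMap ℝ (fun _ : Fin j => E) (ι → E × ℝ)) := fun j =>
      fd_multilinear _ _ j
  have _ : LocallyCompactSpace M := ChartedSpace.locallyCompactSpace E M
  have _ : ∀ j : ℕ, PolishSpace
    (ContinuousMultilinearMap ℝ (fun _ : Fin j => E) (ι → E × ℝ)) := fun j => by
      have := FiniteDimensional.proper ℝ
        (ContinuousMultilinearMap ℝ (fun _ : Fin j => E) (ι → E × ℝ))
      infer_instance
  have _ : ∀ c : M, CompactSpace (Metric.closedBall ((chartAt E (c : M)) (c : M)) (ρ c)) :=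
    fun c => isCompact_iff_compactSpace.1 (isCompact_closedBall _ _)
  have _ : PolishSpace M := polish_of_compact M
  have _ : PolishSpace C(M, M) := polish_CM M M
  have _ : ∀ (c : t) (j : {j : ℕ // (j : ℕ∞) ≤ r}), PolishSpace
      C(Metric.closedBall ((chartAt E (c : M)) (c : M)) (ρ c),
        ContinuousMultilinearMap ℝ (fun _ : Fin (j : ℕ) => E) (ι → E × ℝ)) :=
    fun c j => polish_CM _ _
  have hQ : PolishSpace (QSpace E (ι → E × ℝ) r ρ t) := inferInstance
  let _ := crTopology 𝓘(ℝ, E) M r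
  let Ψ : DiffR 𝓘(ℝ, E) M r → QSpace E (ι → E × ℝ) r ρ t × QSpace E (ι → E × ℝ) r ρ t :=
    fun f => (JMap t he hρ (toCR f), JMap t he hρ (toCR (invD f)))
  have hev := continuous_eval_of_le (E := E) (M := M) (r := r) le_rfl
  have c1 : Continuous (fun f : DiffR 𝓘(ℝ, E) M r => JMap t he hρ (toCR f)) := by
    rw [continuous_iff_le_induced]
    exact e1.le
  have c2 : Continuous (fun f : DiffR 𝓘(ℝ, E) M r => JMap t he hρ (toCR (invD f))) :=
    continuous_J t he hρ (fun f : DiffR 𝓘(ℝ, E) M r => toCR (invD f))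
      (continuous_eval_inv hev) (jetM_inv hr le_rfl)
  have hΨ : Continuous Ψ := c1.prodMk c2
  have hind : IsInducing Ψ := by
    refine IsInducing.of_comp hΨ continuous_fst ?_
    exact ⟨e1⟩
  have hinj : Function.Injective Ψ := by
    intro f g hfg
    have h1 := congrArg (fun q => q.1.1) hfg
    apply Diffeomorph.toEquiv_injective
    ext x : 1
    exact DFunLike.congr_fun h1 x
  have hcl : IsClosed (range Ψ) := by
    have hR := isClosed_range_J (r := r) he hρ hle ht
    have e2 : range Ψ = {q | q.1 ∈ range (fun g : CR E M r => JMap t he hρ g) ∧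
        q.2 ∈ range (fun g : CR E M r => JMap t he hρ g) ∧
        q.1.1.comp q.2.1 = ContinuousMap.id M ∧ q.2.1.comp q.1.1 = ContinuousMap.id M} := by
      ext q
      constructor
      · rintro ⟨f, rfl⟩
        refine ⟨⟨_, rfl⟩, ⟨_, rfl⟩, ?_, ?_⟩
        · ext x; exact DiffR.inv_right f x
        · ext x; exact DiffR.inv_left f x
      · rintro ⟨⟨g, hg⟩, ⟨g', hg'⟩, h1, h2⟩
        have a1 : ∀ x, g.1 (g'.1 x) = x := by
          intro x
          have := DFunLike.congr_fun h1 x
          rw [← hg, ← hg'] at this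
          exact this
        have a2 : ∀ x, g'.1 (g.1 x) = x := by
          intro x
          have := DFunLike.congr_fun h2 x
          rw [← hg, ← hg'] at this
          exact this
        let f : DiffR 𝓘(ℝ, E) M r :=
          { toEquiv := ⟨g.1, g'.1, a2, a1⟩
            contMDiff_toFun := g.2
            contMDiff_invFun := g'.2 }
        refine ⟨f, Prod.ext ?_ ?_⟩
        · exact hg
        · exact hg'
    rw [e2]
    have k1 : Continuous (fun q : QSpace E (ι → E × ℝ) r ρ t × QSpace E (ι → E × ℝ) r ρ t =>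
        q.1.1.comp q.2.1) :=
      ContinuousMap.continuous_comp'.comp ((continuous_fst.comp continuous_snd).prodMk
        (continuous_fst.comp continuous_fst))
    have k2 : Continuous (fun q : QSpace E (ι → E × ℝ) r ρ t × QSpace E (ι → E × ℝ) r ρ t =>
        q.2.1.comp q.1.1) :=
      ContinuousMap.continuous_comp'.comp ((continuous_fst.comp continuous_fst).prodMk
        (continuous_fst.comp continuous_snd))
    exact (hR.preimage continuous_fst).inter ((hR.preimage continuous_snd).inter
      ((isClosed_eq k1 continuous_const).inter (isClosed_eq k2 continuous_const)))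
  exact IsClosedEmbedding.polishSpace (f := Ψ) ⟨⟨hind, hinj⟩, hcl⟩

end Pool.Agent.W922
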