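import Mathlib
import Pool.Agent.H410R3.DG.Homeo
import Pool.Agent.H904R3.Gen
import Pool.Agent.H110K2.P_polish_of_Gdelta

/-!
# Conjugacy is Borel on a dense Gδ set
-/

set_option autoImplicit false

open Set Filter Topology MeasureTheory TopologicalSpace
open Pool.Agent.H410R3.DG

namespace Pool.Agent.W922

section

variable {D M : Type} [TopologicalSpace D] [PolishSpace D]
  [TopologicalSpace M] [CompactSpace M] [T2Space M] [SecondCountableTopology M]

instance instPolishHomeoP : PolishSpace (HomeoP M) := polish_HomeoP M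

/-- The set of points whose image has a centraliser that meets `U`. -/
def Aset (ι : D → C(M, M)) (U : Set (HomeoP M)) : Set D :=
  {f | ∃ h ∈ U, h.1.1.comp (ι f) = (ι f).comp h.1.1}

theorem Aset_analytic {ι : D → C(M, M)} (hι : Continuous ι) {U : Set (HomeoP M)} (hU : IsOpen U) :
    AnalyticSet (Aset ι U) := by
  have := polish_of_compact M
  have := polish_CM M M
  have := polish_HomeoP M
  have hcl : IsClosed {p : D × HomeoP M | p.2.1.1.comp (ι p.1) = (ι p.1).comp p.2.1.1} := by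
    have h1 : Continuous (fun p : D × HomeoP M => p.2.1.1.comp (ι p.1)) :=
      ContinuousMap.continuous_comp'.comp ((hι.comp continuous_fst).prodMk
        (continuous_fst.comp (continuous_subtype_val.comp continuous_snd)))
    have h2 : Continuous (fun p : D × HomeoP M => (ι p.1).comp p.2.1.1) :=
      ContinuousMap.continuous_comp'.comp
        ((continuous_fst.comp (continuous_subtype_val.comp continuous_snd)).prodMk
        (hι.comp continuous_fst))
    exact isClosed_eq h1 h2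
  borelize (D × HomeoP M)
  have hm : MeasurableSet ({p : D × HomeoP M | p.2.1.1.comp (ι p.1) = (ι p.1).comp p.2.1.1} ∩
      Prod.snd ⁻¹' U) :=
    hcl.measurableSet.inter (hU.preimage continuous_snd).measurableSet
  have h3 := hm.analyticSet.image_of_continuous (continuous_fst (X := D) (Y := HomeoP M))
  convert h3 using 1
  ext f
  constructor
  · rintro ⟨h, hhU, hh⟩
    exact ⟨(f, h), ⟨hh, hhU⟩, rfl⟩
  · rintro ⟨⟨f', h⟩, ⟨hh, hhU⟩, rfl⟩
    exact ⟨h, hhU, hh⟩

/-- A dense `Gδ` set on which the centraliser depends continuously on the point. -/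
theorem exists_good {ι : D → C(M, M)} (hι : Continuous ι) :
    ∃ G : Set D, IsGδ G ∧ Dense G ∧ ∀ V ∈ countableBasis (HomeoP M), ∃ u : Set D, IsOpen u ∧
      ∀ f ∈ G, (f ∈ Aset ι V ↔ f ∈ u) := by
  have := polish_of_compact M
  have := polish_CM M M
  have := polish_HomeoP M
  have h1 : ∀ V ∈ countableBasis (HomeoP M), ∃ u : Set D, IsOpen u ∧
      ∀ᶠ f in residual D, (f ∈ Aset ι V ↔ f ∈ u) := by
    intro V hV
    exact Pool.Agent.H904R3.analytic_baire
      (Aset_analytic hι (isOpen_of_mem_countableBasis hV))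
  choose! u hu1 hu2 using h1
  have h2 : ∀ᶠ f in residual D, ∀ V ∈ countableBasis (HomeoP M), (f ∈ Aset ι V ↔ f ∈ u V) := by
    rw [eventually_countable_ball (countable_countableBasis _)]
    exact hu2
  obtain ⟨G, hG1, hG2, hG3⟩ := mem_residual.1 h2
  exact ⟨G, hG2, hG3, fun V hV => ⟨u V, hu1 V hV, fun f hf => hG1 hf V hV⟩⟩

theorem conj_borel_of_good {ι : D → C(M, M)} (hι : Continuous ι) {G : Set D} (hG : IsGδ G)
    (hgood : ∀ V ∈ countableBasis (HomeoP M), ∃ u : Set D, IsOpen u ∧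
      ∀ f ∈ G, (f ∈ Aset ι V ↔ f ∈ u)) :
    MeasurableSet[borel (D × D)] {p : D × D | p.1 ∈ G ∧ p.2 ∈ G ∧
      ∃ h : M ≃ₜ M, ∀ z, h (ι p.1 z) = ι p.2 (h z)} := by
  have := polish_of_compact M
  have := polish_CM M M
  have := polish_HomeoP M
  have hGP : PolishSpace G := Pool.H110K2.polish_of_Gdelta hG
  let C : Set (G × HomeoP M × G) :=
    {p | p.2.1.1.1.comp (ι p.1) = (ι p.2.2).comp p.2.1.1.1}
  have hC : IsClosed C := by
    have h1 : Continuous (fun p : G × HomeoP M × G => p.2.1.1.1.comp (ι p.1)) :=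
      ContinuousMap.continuous_comp'.comp
        ((hι.comp (continuous_subtype_val.comp continuous_fst)).prodMk
        (continuous_fst.comp (continuous_subtype_val.comp (continuous_fst.comp continuous_snd))))
    have h2 : Continuous (fun p : G × HomeoP M × G => (ι p.2.2).comp p.2.1.1.1) :=
      ContinuousMap.continuous_comp'.comp
        ((continuous_fst.comp (continuous_subtype_val.comp
          (continuous_fst.comp continuous_snd))).prodMk
        (hι.comp (continuous_subtype_val.comp (continuous_snd.comp continuous_snd))))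
    exact isClosed_eq h1 h2
  have hCP : PolishSpace C := hC.polishSpace
  let φ : C → D × D := fun p => ((p.1.1 : D), (p.1.2.2 : D))
  have hφ : Continuous φ := by
    refine Continuous.prodMk ?_ ?_
    · exact continuous_subtype_val.comp (continuous_fst.comp continuous_subtype_val)
    · exact continuous_subtype_val.comp (continuous_snd.comp (continuous_snd.comp
        continuous_subtype_val))
  have key : {p : D × D | p.1 ∈ G ∧ p.2 ∈ G ∧ ∃ h : M ≃ₜ M, ∀ z, h (ι p.1 z) = ι p.2 (h z)} =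
      range φ := by
    ext p
    constructor
    · rintro ⟨h1, h2, h, hh⟩
      refine ⟨⟨(⟨p.1, h1⟩, HomeoP.of h, ⟨p.2, h2⟩), ?_⟩, rfl⟩
      ext z
      exact hh z
    · rintro ⟨⟨⟨f, h, g⟩, hh⟩, rfl⟩
      refine ⟨f.2, g.2, h.toHomeo, fun z => ?_⟩
      exact DFunLike.congr_fun hh z
  rw [key]
  borelize (D × D)
  refine range_borel φ hφ fun U hU => ?_
  refine MeasurableSpace.measurableSet_generateFrom ?_
  show IsOpen (φ ⁻¹' (φ '' U))
  rw [isOpen_iff_mem_nhds]
  rintro ⟨⟨f, h, g⟩, hh⟩ ⟨⟨⟨f', k, g'⟩, hk⟩, hkU, hkφ⟩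
  have ef : f' = f := Subtype.ext (congrArg Prod.fst hkφ)
  have eg : g' = g := Subtype.ext (congrArg Prod.snd hkφ)
  subst ef eg
  -- `k = h z` with `z` in the centraliser of `f`
  obtain ⟨W, hW, hWU⟩ := isOpen_induced_iff.1 hU
  have hkW : (f', k, g') ∈ W := by
    have : (⟨(f', k, g'), hk⟩ : C) ∈ Subtype.val ⁻¹' W := by rw [hWU]; exact hkU
    exact this
  set z : HomeoP M := h.inv.mul k with hz
  have hhz : h.mul z = k := by
    refine HomeoP.ext' fun x => ?_
    show h.1.1 (h.1.2 (k.1.1 x)) = k.1.1 x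
    rw [h.inv_right]
  have hzc : z.1.1.comp (ι f') = (ι f').comp z.1.1 := by
    ext x
    show h.1.2 (k.1.1 (ι f' x)) = ι f' (h.1.2 (k.1.1 x))
    have e1 : k.1.1 (ι f' x) = ι g' (k.1.1 x) := DFunLike.congr_fun hk x
    have e2 : h.1.1 (ι f' (h.1.2 (k.1.1 x))) = ι g' (h.1.1 (h.1.2 (k.1.1 x))) :=
      DFunLike.congr_fun hh _
    rw [h.inv_right] at e2
    rw [e1, ← e2, h.inv_left]
  -- a neighbourhood
  have hcm : Continuous (fun q : (G × HomeoP M × G) × HomeoP M =>
      ((q.1.1, q.1.2.1.mul q.2, q.1.2.2) : G × HomeoP M × G)) := by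
    refine Continuous.prodMk (by fun_prop) (Continuous.prodMk ?_ (by fun_prop))
    exact HomeoP.continuous_mul.comp (((continuous_fst.comp (continuous_snd.comp
      continuous_fst))).prodMk continuous_snd)
  have hW' : IsOpen ((fun q : (G × HomeoP M × G) × HomeoP M =>
      ((q.1.1, q.1.2.1.mul q.2, q.1.2.2) : G × HomeoP M × G)) ⁻¹' W) := hW.preimage hcm
  have hmem : (((f', h, g'), z) : (G × HomeoP M × G) × HomeoP M) ∈
      ((fun q : (G × HomeoP M × G) × HomeoP M =>
      ((q.1.1, q.1.2.1.mul q.2, q.1.2.2) : G × HomeoP M × G)) ⁻¹' W) := by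
    show (f', h.mul z, g') ∈ W
    rw [hhz]; exact hkW
  obtain ⟨O, V, hO, hV, hfO, hzV, hOV⟩ := isOpen_prod_iff.1 hW' _ _ hmem
  obtain ⟨B, hB, hzB, hBV⟩ := (isBasis_countableBasis (HomeoP M)).exists_subset_of_mem_open hzV hV
  obtain ⟨u, hu, huG⟩ := hgood B hB
  have hfu : (f' : D) ∈ u := (huG f' f'.2).1 ⟨z, hzB, hzc⟩
  have hnb : (Subtype.val ⁻¹' (O ∩ {q | (q.1 : D) ∈ u}) : Set C) ∈ 𝓝 (⟨(f', h, g'), hh⟩ : C) := by
    refine (IsOpen.preimage continuous_subtype_val ?_).mem_nhds ⟨hfO, hfu⟩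
    exact hO.inter (hu.preimage (continuous_subtype_val.comp continuous_fst))
  filter_upwards [hnb] with c hc
  obtain ⟨⟨f₁, h₁, g₁⟩, hh₁⟩ := c
  obtain ⟨hc1, hc2⟩ := hc
  obtain ⟨z₁, hz₁B, hz₁c⟩ := (huG f₁ f₁.2).2 hc2
  have hin : (f₁, h₁.mul z₁, g₁) ∈ W := 
    hOV (show (((f₁, h₁, g₁), z₁) : (G × HomeoP M × G) × HomeoP M) ∈ O ×ˢ V from
      ⟨hc1, hBV hz₁B⟩)
  have hin' : (f₁, h₁.mul z₁, g₁) ∈ C := by
    ext x
    show h₁.1.1 (z₁.1.1 (ι f₁ x)) = ι g₁ (h₁.1.1 (z₁.1.1 x))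
    have e1 : z₁.1.1 (ι f₁ x) = ι f₁ (z₁.1.1 x) := DFunLike.congr_fun hz₁c x
    have e2 : h₁.1.1 (ι f₁ (z₁.1.1 x)) = ι g₁ (h₁.1.1 (z₁.1.1 x)) := DFunLike.congr_fun hh₁ _
    rw [e1, e2]
  refine ⟨⟨(f₁, h₁.mul z₁, g₁), hin'⟩, ?_, rfl⟩
  have : (⟨(f₁, h₁.mul z₁, g₁), hin'⟩ : C) ∈ (Subtype.val ⁻¹' W : Set C) := hin
  rw [hWU] at this
  exact this

end

end Pool.Agent.W922
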