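import Mathlib
import Pool.Agent.W922.PolishD
import Pool.Agent.W922.GenConj

/-!
# Topological conjugacy is Borel on a dense Gδ subset of `Diff^r(M)`
-/

set_option autoImplicit false

open Set Filter Topology
open scoped Manifold ContDiff
open Pool.Agent.H410R3.KS Pool.Agent.H410R3.DG

namespace Pool.Agent.W922

variable {E : Type} [NormedAddCommGroup E] [NormedSpace ℝ E] [FiniteDimensional ℝ E]
  {M : Type} [TopologicalSpace M] [ChartedSpace E M] [IsManifold 𝓘(ℝ, E) ∞ M]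

theorem generic_borel (r : ℕ∞) (hr : 1 ≤ r) [CompactSpace M] [T2Space M]
    (τ : TopologicalSpace (DiffR 𝓘(ℝ, E) M r)) (hτ : τ = crTopology 𝓘(ℝ, E) M r) :
    ∃ G : Set (DiffR 𝓘(ℝ, E) M r), @IsGδ _ τ G ∧ @Dense _ τ G ∧
      @MeasurableSet (DiffR 𝓘(ℝ, E) M r × DiffR 𝓘(ℝ, E) M r)
        (@borel _ (TopologicalSpace.induced Prod.fst τ ⊓ TopologicalSpace.induced Prod.snd τ))
        {p | p.1 ∈ G ∧ p.2 ∈ G ∧ ∃ h : M ≃ₜ M, ∀ z : M, h (p.1.map z) = p.2.map (h z)} := by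
  subst hτ
  let τ : TopologicalSpace (DiffR 𝓘(ℝ, E) M r) := crTopology 𝓘(ℝ, E) M r
  have hP : PolishSpace (DiffR 𝓘(ℝ, E) M r) := polish_cr r hr
  have _ : SecondCountableTopology M := ChartedSpace.secondCountable_of_sigmaCompact E M
  have hev := continuous_eval_of_le (E := E) (M := M) (r := r) le_rfl
  let ι : DiffR 𝓘(ℝ, E) M r → C(M, M) := fun f => ⟨f.map, Diffeomorph.continuous f⟩
  have hι : Continuous ι := ContinuousMap.continuous_of_continuous_uncurry _ hev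
  obtain ⟨G, h1, h2, h3⟩ := exists_good hι
  exact ⟨G, h1, h2, conj_borel_of_good hι h1 h3⟩

end Pool.Agent.W922
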