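import Pool.Agent.W894.HT.Ex

/-!
# Project HT: the number of alternating words
-/

namespace Pool.Agent.W922.HTXalt

open Pool.Agent.W894.HT

/-- two letters -/
def blk (n M : ℕ) (p : Fin n × Fin n) : List ℕ := [n + M + 1 + p.2.val, p.1.val + 1]

theorem range'_low (n : ℕ) : (List.finRange n).map (fun i : Fin n => i.val + 1)
    = List.range' 1 n := by
  apply List.ext_getElem
  · simp
  · intro i h1 h2
    simp; omega

theorem range'_high (n c : ℕ) : (List.finRange n).map (fun i : Fin n => c + i.val)
    = List.range' c n := by
  apply List.ext_getElem
  · simp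
  · intro i h1 h2
    simp

theorem perm_blk {n M : ℕ} (P : List (Fin n × Fin n)) :
    (P.flatMap (blk n M)).Perm (P.map (fun p => n + M + 1 + p.2.val)
      ++ P.map (fun p => p.1.val + 1)) := by
  have h := (List.map_append_flatMap_perm P (fun p => n + M + 1 + p.2.val)
    (fun p => [p.1.val + 1])).symm
  have e : P.flatMap (fun p => [p.1.val + 1]) = P.map (fun p => p.1.val + 1) :=
    List.map_eq_flatMap.symm
  rw [e] at h
  exact h

theorem alt_blk {n M : ℕ} (G : ℕ → ℕ → Bool) : ∀ (P : List (Fin n × Fin n)) (x : ℕ), x ≤ n →
    (∀ p ∈ P, G p.1.val p.2.val = true) → alt n M G x (P.flatMap (blk n M)) = true := by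
  intro P
  induction P with
  | nil => intro x hx _; simp [alt, hx]
  | cons p P ih =>
    intro x hx hP
    have h1 := hP p (by simp)
    have h2 := ih (p.1.val + 1) p.1.isLt (fun q hq => hP q (by simp [hq]))
    have hp1 := p.1.isLt
    have hp2 := p.2.isLt
    simp only [List.flatMap_cons, blk, List.cons_append, List.nil_append, alt, Bool.and_eq_true]
    refine ⟨?_, ?_, h2⟩
    · rw [if_pos hx]
      simp only [decide_eq_true_eq]
      omega
    · rw [if_neg (by omega)]
      simp only [Fb, Bool.or_eq_true, Bool.and_eq_true, decide_eq_true_eq]
      right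
      refine ⟨⟨by omega, by omega, by omega, by omega⟩, ?_⟩
      rw [show p.1.val + 1 - 1 = p.1.val by omega,
        show n + M + 1 + p.2.val - n - M - 1 = p.2.val by omega]
      exact h1

theorem of_alt {n M : ℕ} (G : ℕ → ℕ → Bool) : ∀ (k : ℕ) (l : List ℕ), l.length ≤ k → ∀ x, x ≤ n →
    alt n M G x l = true → ∃ P : List (Fin n × Fin n), l = P.flatMap (blk n M) ∧
      ∀ p ∈ P, G p.1.val p.2.val = true := by
  intro k
  induction k with
  | zero =>
    intro l hl x _ _
    have : l = [] := List.eq_nil_of_length_eq_zero (by omega)
    subst this
    exact ⟨[], by simp, by simp⟩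
  | succ k ih =>
    intro l hl x hx h
    match l, hl, h with
    | [], _, _ => exact ⟨[], by simp, by simp⟩
    | [b], _, h =>
      exfalso
      simp only [alt, Bool.and_eq_true, decide_eq_true_eq, if_pos hx] at h
      omega
    | b :: a :: l, hl, h =>
      simp only [alt, Bool.and_eq_true, if_pos hx, decide_eq_true_eq] at h
      obtain ⟨hb, ha, hr⟩ := h
      rw [if_neg (by omega)] at ha
      simp only [Fb, Bool.or_eq_true, Bool.and_eq_true, decide_eq_true_eq] at ha
      rcases ha with ⟨⟨h1, h2, _⟩, _⟩ | ⟨⟨h1, h2, h3, h4⟩, hG⟩
      · omega
      obtain ⟨P, hP, hPG⟩ := ih l (by simp only [List.length_cons] at hl; omega) a h2 hr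
      refine ⟨(⟨a - 1, by omega⟩, ⟨b - n - M - 1, by omega⟩) :: P, ?_, ?_⟩
      · rw [List.flatMap_cons, ← hP]
        simp only [blk, List.cons_append, List.nil_append, List.cons.injEq, and_true]
        constructor <;> omega
      · intro p hp
        rcases List.mem_cons.1 hp with rfl | hp
        · exact hG
        · exact hPG p hp

theorem blk_inj {n M : ℕ} {p q : Fin n × Fin n} (h : blk n M p = blk n M q) : p = q := by
  simp only [blk, List.cons.injEq, and_true] at h
  apply Prod.ext
  · apply Fin.ext; omega
  · apply Fin.ext; omega

theorem flat_inj {n M : ℕ} : ∀ (P Q : List (Fin n × Fin n)),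
    P.flatMap (blk n M) = Q.flatMap (blk n M) → P = Q := by
  intro P
  induction P with
  | nil =>
    intro Q h
    cases Q with
    | nil => rfl
    | cons q Q => simp [blk] at h
  | cons p P ih =>
    intro Q h
    cases Q with
    | nil => simp [blk] at h
    | cons q Q =>
      rw [List.flatMap_cons, List.flatMap_cons] at h
      obtain ⟨h1, h2⟩ := List.append_inj h (by simp [blk])
      rw [blk_inj h1, ih Q h2]

theorem main : S_XALT := by
  intro n M G hn
  obtain ⟨V, hV⟩ : ∃ V, V = List.range' 1 n ++ List.range' (n + M + 1) n := ⟨_, rfl⟩
  rw [← hV]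
  have hVn : V.Nodup := by
    rw [hV, List.nodup_append]
    refine ⟨List.nodup_range', List.nodup_range', ?_⟩
    intro a ha b hb
    simp only [List.mem_range'_1] at ha hb
    omega
  have hF : (V.permutations'.filter fun l => alt n M G 0 l).Nodup := by
    apply List.Nodup.filter
    exact (List.permutations_perm_permutations' V).nodup_iff.1 (List.nodup_permutations V hVn)
  -- the words of a pair of permutations
  let pr : Equiv.Perm (Fin n) × {σ : Equiv.Perm (Fin n) // ∀ i, G i.val (σ i).val = true} →
      List (Fin n × Fin n) := fun t => (List.finRange n).map fun i => (t.1 i, t.2.1 (t.1 i))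
  have h1 : ∀ t, (pr t).flatMap (blk n M) ∈
      (V.permutations'.filter fun l => alt n M G 0 l).toFinset := by
    intro t
    rw [List.mem_toFinset, List.mem_filter, List.mem_permutations']
    refine ⟨?_, ?_⟩
    · refine (perm_blk _).trans ?_
      rw [hV]
      refine List.Perm.trans List.perm_append_comm ?_
      refine List.Perm.append ?_ ?_
      · simp only [pr, List.map_map]
        rw [← range'_low]
        have h := (t.1.map_finRange_perm).map (fun i : Fin n => i.val + 1)
        rw [List.map_map] at h
        exact h
      · simp only [pr, List.map_map]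
        rw [← range'_high]
        have h := (Equiv.Perm.map_finRange_perm (t.1.trans t.2.1)).map (fun i : Fin n => n + M + 1 + i.val)
        rw [List.map_map] at h
        exact h
    · apply alt_blk G _ _ (Nat.zero_le _)
      intro p hp
      simp only [pr, List.mem_map, List.mem_finRange, true_and] at hp
      obtain ⟨i, rfl⟩ := hp
      exact t.2.2 _
  have hbij : Function.Bijective (fun t => (⟨(pr t).flatMap (blk n M), h1 t⟩ :
      {l // l ∈ (V.permutations'.filter fun l => alt n M G 0 l).toFinset})) := by
    constructor
    · intro t t' h
      have h2 : (pr t).flatMap (blk n M) = (pr t').flatMap (blk n M) := congrArg Subtype.val h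
      have h3 := flat_inj _ _ h2
      simp only [pr] at h3
      rw [List.map_inj_left] at h3
      have h4 : ∀ i, t.1 i = t'.1 i := fun i => congrArg Prod.fst (h3 i (List.mem_finRange i))
      have h5 : ∀ i, t.2.1 (t.1 i) = t'.2.1 (t'.1 i) :=
        fun i => congrArg Prod.snd (h3 i (List.mem_finRange i))
      have h6 : t.1 = t'.1 := Equiv.ext h4
      refine Prod.ext h6 (Subtype.ext (Equiv.ext fun j => ?_))
      have := h5 (t.1.symm j)
      rw [← h6, Equiv.apply_symm_apply] at this
      exact this
    · rintro ⟨l, hl⟩
      rw [List.mem_toFinset, List.mem_filter, List.mem_permutations'] at hl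
      obtain ⟨hl1, hl2⟩ := hl
      obtain ⟨P, hP, hPG⟩ := of_alt G _ l le_rfl 0 (Nat.zero_le _) hl2
      subst hP
      have hp := (perm_blk (M := M) P).symm.trans hl1
      rw [hV] at hp
      -- the low letters
      have hlow : (P.map (fun p => p.1.val + 1)).Perm (List.range' 1 n) := by
        have h := hp.filter (fun z => decide (z ≤ n))
        rw [List.filter_append, List.filter_append] at h
        have e1 : (P.map (fun p => n + M + 1 + p.2.val)).filter (fun z => decide (z ≤ n)) = [] := by
          rw [List.filter_eq_nil_iff]
          intro a ha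
          simp only [List.mem_map] at ha
          obtain ⟨p, _, rfl⟩ := ha
          simp only [decide_eq_true_eq]
          omega
        have e2 : (P.map (fun p => p.1.val + 1)).filter (fun z => decide (z ≤ n))
            = P.map (fun p => p.1.val + 1) := by
          rw [List.filter_eq_self]
          intro a ha
          simp only [List.mem_map] at ha
          obtain ⟨p, _, rfl⟩ := ha
          have := p.1.isLt
          simp only [decide_eq_true_eq]
          omega
        have e3 : (List.range' 1 n).filter (fun z => decide (z ≤ n)) = List.range' 1 n := by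
          rw [List.filter_eq_self]
          intro a ha
          simp only [List.mem_range'_1] at ha
          simp only [decide_eq_true_eq]
          omega
        have e4 : (List.range' (n + M + 1) n).filter (fun z => decide (z ≤ n)) = [] := by
          rw [List.filter_eq_nil_iff]
          intro a ha
          simp only [List.mem_range'_1] at ha
          simp only [decide_eq_true_eq]
          omega
        rw [e1, e2, e3, e4, List.nil_append, List.append_nil] at h
        exact h
      have hhigh : (P.map (fun p => n + M + 1 + p.2.val)).Perm (List.range' (n + M + 1) n) := by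
        have h2 := hp.trans List.perm_append_comm
        exact (List.perm_append_right_iff _).1 (h2.trans (hlow.symm.append_left _))
      have hlen : P.length = n := by
        have := hlow.length_eq
        simpa using this
      -- the permutations
      have hinj1 : Function.Injective (fun i : Fin n => (P.get (i.cast hlen.symm)).1) := by
        have hnd : (P.map (fun p => p.1.val + 1)).Nodup := hlow.nodup_iff.2 List.nodup_range'
        intro i j hij
        have hij' : (P.map (fun p => p.1.val + 1))[i.val]'(by simp [hlen])
            = (P.map (fun p => p.1.val + 1))[j.val]'(by simp [hlen]) := by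
          simp only [List.getElem_map]
          have : (P[i.val]'(by rw [hlen]; exact i.isLt)).1
            = (P[j.val]'(by rw [hlen]; exact j.isLt)).1 := hij
          rw [this]
        exact Fin.ext ((hnd.getElem_inj_iff).1 hij')
      have hinj2 : Function.Injective (fun i : Fin n => (P.get (i.cast hlen.symm)).2) := by
        have hnd : (P.map (fun p => n + M + 1 + p.2.val)).Nodup :=
          hhigh.nodup_iff.2 List.nodup_range'
        intro i j hij
        have hij' : (P.map (fun p => n + M + 1 + p.2.val))[i.val]'(by simp [hlen])
            = (P.map (fun p => n + M + 1 + p.2.val))[j.val]'(by simp [hlen]) := by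
          simp only [List.getElem_map]
          have : (P[i.val]'(by rw [hlen]; exact i.isLt)).2
            = (P[j.val]'(by rw [hlen]; exact j.isLt)).2 := hij
          rw [this]
        exact Fin.ext ((hnd.getElem_inj_iff).1 hij')
      let τ : Equiv.Perm (Fin n) := Equiv.ofBijective _ (Finite.injective_iff_bijective.1 hinj1)
      let ρ : Equiv.Perm (Fin n) := Equiv.ofBijective _ (Finite.injective_iff_bijective.1 hinj2)
      have hτ : ∀ i, τ i = (P.get (i.cast hlen.symm)).1 := fun i => rfl
      have hρ : ∀ i, ρ i = (P.get (i.cast hlen.symm)).2 := fun i => rfl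
      have hσ : ∀ i, G i.val ((τ.symm.trans ρ) i).val = true := by
        intro i
        obtain ⟨j, rfl⟩ := τ.surjective i
        rw [Equiv.trans_apply, Equiv.symm_apply_apply, hτ, hρ]
        exact hPG _ (List.get_mem _ _)
      refine ⟨(τ, ⟨τ.symm.trans ρ, hσ⟩), Subtype.ext ?_⟩
      simp only
      congr 1
      simp only [pr]
      apply List.ext_getElem
      · simp [hlen]
      · intro i h2 h3
        simp only [List.getElem_map, List.getElem_finRange, Equiv.trans_apply,
          Equiv.symm_apply_apply]
        rw [hτ, hρ]
        rfl
  have hcard := Nat.card_congr (Equiv.ofBijective _ hbij)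
  rw [Nat.card_prod, Nat.card_perm, Nat.card_fin] at hcard
  rw [hcard, Nat.card_eq_fintype_card, Fintype.card_coe, List.toFinset_card_of_nodup hF]

end Pool.Agent.W922.HTXalt
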