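import Pool.Agent.W988.RA.Defs

open MeasureTheory Pool.Agent.W988.RA
open scoped ENNReal BigOperators Pointwise

set_option autoImplicit false

namespace Pool.Agent.W922.RA_PHI

lemma av_nonneg {n : ℕ} (f : (Fin n → Bool) → ℝ) (hf : ∀ ε, 0 ≤ f ε) : 0 ≤ av f := by
  unfold av
  exact div_nonneg (Finset.sum_nonneg fun ε _ => hf ε) (by positivity)

lemma mulV_single {n m : ℕ} (V : AR n m) (M : MM n) (j : Fin n) :
    mulV M (wv V (Sum.inl j)) = fun k => M k j := by
  funext k
  simp [mulV, wv, Pi.single_apply]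

theorem colsum (hKH : S_KH) (hR : S_RVP) {n m : ℕ} (V : AR n m) (M : MM n) (h : RV V M ≤ 2) :
    ∑ k, ∑ j, M k j ^ 2 ≤ 12 * n := by
  rw [Finset.sum_comm]
  have : ∀ j ∈ (Finset.univ : Finset (Fin n)), ∑ k, M k j ^ 2 ≤ (12:ℝ) := by
    intro j _
    have h1 := hKH n (fun k => M k j)
    have h2 := hR.2.2.2.2.2.2.2.1 n m V M (Sum.inl j)
    rw [mulV_single] at h2
    have h3 : 0 ≤ av (fun ε => |dt ε (fun k => M k j)|) := av_nonneg _ (fun _ => abs_nonneg _)
    nlinarith
  calc _ ≤ ∑ j : Fin n, (12:ℝ) := Finset.sum_le_sum this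
    _ = 12 * n := by simp; ring

theorem vol2 (hR : S_RVP) (n m : ℕ) :
    volume {B : AR n m | nrm B ≤ 2} ≤ ENNReal.ofReal (2 ^ (n * m)) * volume (KK n m) := by
  have hsub : {B : AR n m | nrm B ≤ 2} ⊆ (2:ℝ) • KK n m := by
    intro B hB
    have hB' : nrm B ≤ 2 := hB
    refine ⟨(2⁻¹ : ℝ) • B, ?_, ?_⟩
    · show nrm ((2⁻¹ : ℝ) • B) ≤ 1
      rw [hR.2.2.2.2.2.1 n m B (2⁻¹)]
      rw [abs_of_pos (by norm_num : (0:ℝ) < 2⁻¹)]
      linarith
    · show (2:ℝ) • ((2⁻¹ : ℝ) • B) = B
      rw [smul_smul]; norm_num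
  refine (measure_mono hsub).trans ?_
  rw [Measure.addHaar_smul]
  have : Module.finrank ℝ (AR n m) = n * m := by
    simp [AR, Module.finrank_fintype_fun_eq_card]
  rw [this, abs_of_pos (by positivity)]

lemma dtm_cont (n : ℕ) : Continuous (dtm : MM n → ℝ) := by
  unfold dtm
  apply Continuous.abs
  apply Continuous.matrix_det
  exact continuous_id

/-- abstract Tonelli step -/
theorem tonelli {α β : Type} [MeasureSpace α] [MeasureSpace β] [SFinite (volume : Measure α)]
    [SFinite (volume : Measure β)] (T : Set (α × β)) (hT : MeasurableSet T) (g : β → ℝ≥0∞)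
    (hg : Measurable g) :
    ∫⁻ x, ∫⁻ y in {y | (x, y) ∈ T}, g y = ∫⁻ y, g y * volume {x | (x, y) ∈ T} := by
  have h1 : ∀ x : α, ∫⁻ y in {y | (x, y) ∈ T}, g y =
      ∫⁻ y, T.indicator (fun q : α × β => g q.2) (x, y) := by
    intro x
    have hm : MeasurableSet {y : β | (x, y) ∈ T} := measurable_prodMk_left hT
    rw [← lintegral_indicator hm]
    rfl
  have h2 : ∀ y : β, ∫⁻ x, T.indicator (fun q : α × β => g q.2) (x, y) =
      g y * volume {x | (x, y) ∈ T} := by
    intro y
    have hm : MeasurableSet {x : α | (x, y) ∈ T} := measurable_prodMk_right hT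
    rw [← lintegral_indicator_const hm]
    rfl
  simp_rw [h1]
  rw [lintegral_lintegral_swap]
  · simp_rw [h2]
  · apply Measurable.aemeasurable
    exact (hg.comp measurable_snd).indicator hT

theorem result (hKH : S_KH) (hR : S_RVP) (hD : S_DET) (_hKC : S_KC) : S_PHI := by
  intro n m hn hm
  have hcont := hR.1 n m
  have hcl : MeasurableSet {q : AR n m × MM n | RV q.1 q.2 ≤ 2} :=
    (isClosed_le hcont continuous_const).measurableSet
  have hB : MeasurableSet {B : AR n m | nrm B ≤ 2} :=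
    (isClosed_le (hR.2.1 n m) continuous_const).measurableSet
  have hg : Measurable (fun M : MM n => ENNReal.ofReal (dtm M ^ m)) := by
    apply Measurable.ennreal_ofReal
    exact ((dtm_cont n).pow m).measurable
  have key := tonelli {q : AR n m × MM n | RV q.1 q.2 ≤ 2} hcl _ hg
  simp only [Set.mem_ofPred_eq] at key
  unfold Ph
  rw [key]
  have hpt : ∀ M : MM n, ENNReal.ofReal (dtm M ^ m) * volume {V : AR n m | RV V M ≤ 2} ≤
      Set.indicator {M : MM n | ∑ k, ∑ j, M k j ^ 2 ≤ 12 * n}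
          (fun _ => ENNReal.ofReal (2 ^ (n * m)) * volume (KK n m)) M := by
    intro M
    by_cases hM : M ∈ {M : MM n | ∑ k, ∑ j, M k j ^ 2 ≤ 12 * n}
    · rw [Set.indicator_of_mem hM]
      refine le_trans ?_ (vol2 hR n m)
      refine le_trans ?_ (hD n m M _ hm hB)
      refine mul_le_mul_right (measure_mono ?_) _
      intro V hV
      have hV' : RV V M ≤ 2 := hV
      exact (hR.2.2.2.2.2.2.2.2 n m V M).trans hV'
    · rw [Set.indicator_of_notMem hM]
      have : {V : AR n m | RV V M ≤ 2} = ∅ := by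
        ext V
        simp only [Set.mem_ofPred_eq, Set.mem_empty_iff_false, iff_false]
        intro hV
        exact hM (colsum hKH hR V M hV)
      rw [this]
      simp
  refine (lintegral_mono hpt).trans ?_
  refine (lintegral_indicator_const_le _ _).trans ?_
  rw [mul_comm]

end Pool.Agent.W922.RA_PHI
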